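import Pool.Agent.helper91.RB.Spec1

set_option autoImplicit false

namespace Pool.Agent.RB

open NumberField NumberField.InfinitePlace NumberField.Units NumberField.Units.dirichletUnitTheorem
open MeasureTheory Filter Topology Module
open scoped nonZeroDivisors Real Classical

theorem UNF_itsum {ι α : Type*} [Countable ι] [MeasurableSpace α] {μ : Measure α} {F : ι → α → ℂ}
    (hF : ∀ i, Integrable (F i) μ) (hs : Summable fun i => ∫ a, ‖F i a‖ ∂μ)
    (hp : ∀ᵐ a ∂μ, Summable (fun i => F i a)) : Integrable (fun a => ∑' i, F i a) μ := by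
  have hm : AEStronglyMeasurable (fun a => ∑' i, F i a) μ := by
    refine aestronglyMeasurable_of_tendsto_ae (u := (atTop : Filter (Finset ι)))
      (f := fun s a => ∑ i ∈ s, F i a) ?_ ?_
    · intro s
      exact s.aestronglyMeasurable_fun_sum fun i _ => (hF i).1
    · filter_upwards [hp] with a ha
      exact ha.hasSum
  refine ⟨hm, ?_⟩
  have h1 : ∫⁻ a, ‖∑' i, F i a‖ₑ ∂μ ≤ ∫⁻ a, ∑' i, ‖F i a‖ₑ ∂μ := by
    refine lintegral_mono_ae ?_
    filter_upwards [hp] with a ha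
    exact enorm_tsum_le_tsum_enorm
  have h2 : ∫⁻ a, ∑' i, ‖F i a‖ₑ ∂μ = ∑' i, ∫⁻ a, ‖F i a‖ₑ ∂μ :=
    lintegral_tsum (fun i => (hF i).1.enorm)
  have h3 : ∑' i, ∫⁻ a, ‖F i a‖ₑ ∂μ ≠ ⊤ := by
    have (i : ι) : ∫⁻ a, ‖F i a‖ₑ ∂μ = ‖∫ a, ‖F i a‖ ∂μ‖ₑ := by
      dsimp [enorm]
      rw [lintegral_coe_eq_integral _ (hF i).norm, ENNReal.coe_nnreal_eq, coe_nnnorm,
        Real.norm_of_nonneg (integral_nonneg (fun a ↦ norm_nonneg (F i a)))]
      simp only [coe_nnnorm]
    rw [funext this]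
    exact ENNReal.tsum_coe_ne_top_iff_summable.2 <| NNReal.summable_coe.1 hs.abs
  unfold HasFiniteIntegral
  refine lt_of_le_of_lt h1 ?_
  rw [h2]
  exact lt_top_iff_ne_top.2 h3


theorem UNF_hs {T L : Type*} [Finite T] {A : L → ℂ} {a : ℂ} (hA : HasSum A a) :
    HasSum (fun p : T × L => A p.2) ((Nat.card T : ℂ) * a) := by
  have : Fintype T := Fintype.ofFinite _
  have h1 : HasSum (fun _ : T => (1 : ℂ)) (Nat.card T : ℂ) := by
    have h := hasSum_fintype (fun _ : T => (1 : ℂ))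
    have e2 : (∑ _b : T, (1 : ℂ)) = (Nat.card T : ℂ) := by
      rw [Finset.sum_const, nsmul_eq_mul, mul_one, Finset.card_univ, Nat.card_eq_fintype_card]
    rwa [e2] at h
  have h3 : Summable (fun _ : T => ‖(1:ℂ)‖) := Summable.of_finite
  have h4 : Summable (fun l : L => ‖A l‖) := hA.summable.norm
  have h5 := summable_mul_of_summable_norm (f := fun _ : T => (1:ℂ)) (g := A) h3 h4
  have h6 := HasSum.mul (f := fun _ : T => (1:ℂ)) (g := A) h1 hA h5
  simpa using h6

section units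

variable (K : Type) [Field K] [NumberField K]


theorem UNF_units (hFDX : FDX_stmt) (g : logSpace K → ℂ) (hg : Integrable g) :
    HasSum (fun u : (𝓞 K)ˣ => ∫ z in FD K, g (logEmbedding K (Additive.ofMul u) + z))
      ((Nat.card (torsion K) : ℂ) * ∫ z, g z) := by
  obtain ⟨-, -, -, -, -, -, h7⟩ := hFDX K
  obtain ⟨hs, ht⟩ := h7 g hg
  have hA : HasSum (fun l : unitLattice K => ∫ z in FD K, g ((l : logSpace K) + z)) (∫ z, g z) := by
    rw [← ht]; exact hs.hasSum
  have hex : ∀ l : unitLattice K, ∃ u : (𝓞 K)ˣ,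
      logEmbedding K (Additive.ofMul u) = (l : logSpace K) := by
    intro l
    obtain ⟨x, -, hx⟩ := l.2
    exact ⟨x.toMul, hx⟩
  choose σ hσ using hex
  have hlogt : ∀ t : torsion K, logEmbedding K (Additive.ofMul (t : (𝓞 K)ˣ)) = 0 := by
    intro t
    exact logEmbedding_eq_zero_iff.2 t.2
  have hb : ∃ e : torsion K × unitLattice K ≃ (𝓞 K)ˣ, ∀ p, logEmbedding K (Additive.ofMul (e p)) = (p.2 : logSpace K) := by
    have hlog : ∀ (l : unitLattice K) (t : torsion K), logEmbedding K (Additive.ofMul (σ l * (t : (𝓞 K)ˣ))) = (l : logSpace K) := by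
      intro l t
      have h1 : logEmbedding K (Additive.ofMul (σ l * (t : (𝓞 K)ˣ))) =
        logEmbedding K (Additive.ofMul (σ l)) + logEmbedding K (Additive.ofMul (t : (𝓞 K)ˣ)) :=
        map_add (logEmbedding K) _ _
      rw [h1, hσ, hlogt, add_zero]
    refine ⟨Equiv.ofBijective (fun p : torsion K × unitLattice K => σ p.2 * (p.1 : (𝓞 K)ˣ)) ⟨?_, ?_⟩, fun p => hlog p.2 p.1⟩
    · intro p q hpq
      have hpq' : σ p.2 * (p.1 : (𝓞 K)ˣ) = σ q.2 * (q.1 : (𝓞 K)ˣ) := hpq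
      have h1 : (p.2 : logSpace K) = q.2 := by
        rw [← hlog p.2 p.1, ← hlog q.2 q.1, hpq']
      have h2 : p.2 = q.2 := Subtype.ext h1
      rw [h2] at hpq'
      have h4 := mul_left_cancel hpq'
      exact Prod.ext (Subtype.ext h4) h2
    · intro u
      have hl : logEmbedding K (Additive.ofMul u) ∈ unitLattice K := ⟨Additive.ofMul u, trivial, rfl⟩
      have ht : (σ ⟨_, hl⟩)⁻¹ * u ∈ torsion K := by
        have h1 : logEmbedding K (Additive.ofMul ((σ ⟨_, hl⟩)⁻¹ * u)) =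
          - logEmbedding K (Additive.ofMul (σ ⟨_, hl⟩)) + logEmbedding K (Additive.ofMul u) := by
          have := map_add (logEmbedding K) (- Additive.ofMul (σ ⟨_, hl⟩)) (Additive.ofMul u)
          rw [map_neg] at this
          exact this
        rw [← logEmbedding_eq_zero_iff, h1, hσ, neg_add_cancel]
      exact ⟨(⟨_, ht⟩, ⟨_, hl⟩), mul_inv_cancel_left _ _⟩
  obtain ⟨e, he⟩ := hb
  rw [← e.hasSum_iff]
  refine (UNF_hs (T := torsion K) hA).congr_fun ?_
  intro p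
  show (∫ z in FD K, g (logEmbedding K (Additive.ofMul (e p)) + z)) = _
  rw [he]

end units

section mel

variable (K : Type) [Field K] [NumberField K]

/-- one exponential -/
noncomputable def UNF_E (a : InfinitePlace K → ℝ) (y : ℝ) (z : logSpace K) : ℝ :=
  Real.exp (-π * ∑ v : InfinitePlace K, (v.mult : ℝ) * (y * tau K z v) * a v ^ 2)

/-- the power of y -/
noncomputable def UNF_phi (s : ℂ) (y : ℝ) : ℂ := (y : ℂ) ^ ((finrank ℚ K : ℂ) * s / 2 - 1)

/-- the measure for the full space -/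
noncomputable def UNF_P0 : Measure (ℝ × logSpace K) :=
  ((volume : Measure ℝ).restrict (Set.Ioi 0)).prod (volume : Measure (logSpace K))

/-- the measure for the fundamental domain -/
noncomputable def UNF_P1 : Measure (ℝ × logSpace K) :=
  ((volume : Measure ℝ).restrict (Set.Ioi 0)).prod ((volume : Measure (logSpace K)).restrict (FD K))

/-- the inner integral -/
noncomputable def UNF_g (a : InfinitePlace K → ℝ) (s : ℂ) (z : logSpace K) : ℂ :=
  ∫ y in Set.Ioi (0 : ℝ), (UNF_E K a y z : ℂ) * UNF_phi K s y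

theorem UNF_P1_le : UNF_P1 K ≤ UNF_P0 K :=
  Measure.prod_mono le_rfl Measure.restrict_le_self

theorem UNF_mel (hMEL : MEL_stmt) : ∃ c : ℝ, 0 < c ∧
    ∀ (a : InfinitePlace K → ℝ), (∀ v, 0 < a v) → ∀ s : ℂ, 0 < s.re →
    Integrable (fun p : ℝ × logSpace K => (UNF_E K a p.1 p.2 : ℂ) * UNF_phi K s p.1) (UNF_P0 K) ∧
    Integrable (UNF_g K a s) ∧
    ∫ z : logSpace K, UNF_g K a s z
      = (c : ℂ) * Ga K s * ((∏ v : InfinitePlace K, a v ^ v.mult : ℝ) : ℂ) ^ (-s) := by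
  obtain ⟨c, hc, h⟩ := hMEL K
  refine ⟨c, hc, fun a ha s hs => ?_⟩
  obtain ⟨h1, h2⟩ := h a ha s hs
  have h1' : Integrable (fun p : ℝ × logSpace K => (UNF_E K a p.1 p.2 : ℂ) * UNF_phi K s p.1)
    (UNF_P0 K) := h1
  refine ⟨h1', ?_, ?_⟩
  · exact Integrable.integral_prod_right h1'
  · rw [← h2]
    unfold UNF_g
    rw [← integral_integral_swap (f := fun (y : ℝ) (z : logSpace K) =>
      (UNF_E K a y z : ℂ) * UNF_phi K s y) (μ := (volume : Measure ℝ).restrict (Set.Ioi 0))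
      (ν := (volume : Measure (logSpace K))) h1']
    refine integral_congr_ae (Filter.Eventually.of_forall fun y => ?_)
    show (∫ z : logSpace K, (UNF_E K a y z : ℂ) * UNF_phi K s y) = _
    rw [integral_mul_const]
    rfl

theorem UNF_shift (a : InfinitePlace K → ℝ) (s : ℂ) (l : logSpace K)
    (h : Integrable (fun p : ℝ × logSpace K => (UNF_E K a p.1 p.2 : ℂ) * UNF_phi K s p.1) (UNF_P0 K)) :
    Integrable (fun p : ℝ × logSpace K => (UNF_E K a p.1 (l + p.2) : ℂ) * UNF_phi K s p.1) (UNF_P1 K) ∧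
    ∫ p, (UNF_E K a p.1 (l + p.2) : ℂ) * UNF_phi K s p.1 ∂(UNF_P1 K) =
      ∫ z in FD K, UNF_g K a s (l + z) := by
  have hmp : MeasurePreserving (Prod.map id (fun z => l + z)) (UNF_P0 K) (UNF_P0 K) :=
    (MeasurePreserving.id _).prod (measurePreserving_add_left (volume : Measure (logSpace K)) l)
  have h1 : Integrable ((fun p : ℝ × logSpace K => (UNF_E K a p.1 p.2 : ℂ) * UNF_phi K s p.1) ∘
    (Prod.map id (fun z => l + z))) (UNF_P0 K) := (hmp.integrable_comp h.1).2 h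
  have h2 : Integrable (fun p : ℝ × logSpace K => (UNF_E K a p.1 (l + p.2) : ℂ) * UNF_phi K s p.1)
    (UNF_P0 K) := h1
  have h3 := h2.mono_measure (UNF_P1_le K)
  refine ⟨h3, ?_⟩
  exact integral_prod_symm _ h3

theorem UNF_P1_ae (hFDX : FDX_stmt) : ∀ᵐ p ∂(UNF_P1 K), 0 < p.1 := by
  have h1 : UNF_P1 K = ((volume : Measure ℝ).prod (volume : Measure (logSpace K))).restrict
    (Set.Ioi 0 ×ˢ FD K) := Measure.prod_restrict _ _
  rw [h1]
  have h2 := ae_restrict_mem (μ := (volume : Measure ℝ).prod (volume : Measure (logSpace K)))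
    (measurableSet_Ioi.prod (hFDX K).2.1 : MeasurableSet (Set.Ioi (0 : ℝ) ×ˢ FD K))
  filter_upwards [h2] with p hp
  exact hp.1

theorem UNF_norm (e : ℝ) (he : 0 ≤ e) (s : ℂ) (y : ℝ) (hy : 0 < y) :
    ((‖(e : ℂ) * UNF_phi K s y‖ : ℝ) : ℂ) = (e : ℂ) * UNF_phi K (s.re : ℂ) y := by
  have h1 : ((finrank ℚ K : ℂ) * s / 2 - 1).re = (finrank ℚ K : ℝ) * s.re / 2 - 1 := by
    simp
  have h2 : ((finrank ℚ K : ℂ) * (s.re : ℂ) / 2 - 1) = (((finrank ℚ K : ℝ) * s.re / 2 - 1 : ℝ) : ℂ) := by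
    push_cast; ring
  unfold UNF_phi
  rw [norm_mul, Complex.norm_cpow_eq_rpow_re_of_pos hy, h1, h2, ← Complex.ofReal_cpow hy.le,
    Complex.norm_real, Real.norm_of_nonneg he]
  push_cast
  ring

end mel

section split

variable (K : Type) [Field K] [NumberField K]

/-- the nonzero elements -/
abbrev UNF_X (J : FI K) : Type := {x : K // x ∈ (J : Submodule (𝓞 K) K) ∧ x ≠ 0}

theorem UNF_cK : Countable K :=
  (Module.finBasis ℚ K).equivFun.injective.countable

theorem UNF_th (hTHI : THI_stmt) (J : FI K) (hJ : J ≠ 0) (t : InfinitePlace K → ℝ)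
    (ht : ∀ v, 0 < t v) :
    Summable (fun x : UNF_X K J => Real.exp (-π * qf K t x)) ∧
    th K (J : Submodule (𝓞 K) K) t = 1 + ∑' x : UNF_X K J, Real.exp (-π * qf K t x) := by
  obtain ⟨h1, -⟩ := hTHI K J hJ t ht
  let T : Set K := {x : K | x ∈ (J : Submodule (𝓞 K) K) ∧ x ≠ 0}
  have hinj : Function.Injective (fun x : UNF_X K J =>
      (⟨x.1, x.2.1⟩ : ((J : Submodule (𝓞 K) K) : Set K))) := by
    intro x y hxy
    have := congrArg (fun z : ((J : Submodule (𝓞 K) K) : Set K) => (z : K)) hxy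
    exact Subtype.ext this
  have h2a := h1.comp_injective hinj
  have h2 : Summable (fun x : UNF_X K J => Real.exp (-π * qf K t x)) := h2a
  refine ⟨h2, ?_⟩
  have hset : ((J : Submodule (𝓞 K) K) : Set K) = {0} ∪ T := by
    ext x
    simp only [SetLike.mem_coe, Set.mem_union, Set.mem_singleton_iff, Set.mem_setOf_eq, T]
    by_cases hx : x = 0
    · simp [hx]
    · simp [hx]
  have hdis : Disjoint ({0} : Set K) T := by
    rw [Set.disjoint_singleton_left]
    intro h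
    exact h.2 rfl
  unfold th
  have h3 : ∑' x : (((J : Submodule (𝓞 K) K) : Set K)), Real.exp (-π * qf K t x)
      = ∑' x : (({0} ∪ T : Set K)), Real.exp (-π * qf K t x) := by rw [hset]
  rw [h3]
  have hfin0 : Summable ((fun x : K => Real.exp (-π * qf K t x)) ∘ ((↑) : ({0} : Set K) → K)) :=
    (hasSum_fintype _).summable
  have h2' : Summable ((fun x : K => Real.exp (-π * qf K t x)) ∘ ((↑) : T → K)) := h2
  have h4 := Summable.tsum_union_disjoint (f := fun x : K => Real.exp (-π * qf K t x)) hdis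
    hfin0 h2'
  have h6 : ∑' x : (({0} : Set K)), Real.exp (-π * qf K t x) = Real.exp (-π * qf K t 0) :=
    tsum_singleton (0 : K) (fun x : K => Real.exp (-π * qf K t x))
  rw [h4, h6]
  have h5 : qf K t 0 = 0 := by
    unfold qf
    refine Finset.sum_eq_zero fun v _ => ?_
    rw [map_zero]; ring
  rw [h5, mul_zero, Real.exp_zero]
  rfl

end split

section main

variable (K : Type) [Field K] [NumberField K]

/-- the summand of the theta series times the power of y -/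
noncomputable def UNF_F (s : ℂ) (x : K) (p : ℝ × logSpace K) : ℂ :=
  ((Real.exp (-π * qf K (fun v => p.1 * tau K p.2 v) x) : ℝ) : ℂ) * UNF_phi K s p.1

theorem UNF_key (hTAU : TAU_stmt) (u : (𝓞 K)ˣ) (g x : K) (hx : x = (u : K) * g) (y : ℝ)
    (z : logSpace K) :
    Real.exp (-π * qf K (fun v => y * tau K z v) x) =
      UNF_E K (fun v => v g) y (logEmbedding K (Additive.ofMul u) + z) := by
  obtain ⟨-, h2, -, h4, -, -⟩ := hTAU K
  unfold UNF_E qf
  congr 2
  refine Finset.sum_congr rfl fun v _ => ?_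
  rw [h2, h4, hx, map_mul]
  ring

/-- fiberwise value -/
theorem UNF_fib (hTAU : TAU_stmt) (hFDX : FDX_stmt) (c : ℝ)
    (hM : ∀ (a : InfinitePlace K → ℝ), (∀ v, 0 < a v) → ∀ s : ℂ, 0 < s.re →
      Integrable (fun p : ℝ × logSpace K => (UNF_E K a p.1 p.2 : ℂ) * UNF_phi K s p.1) (UNF_P0 K) ∧
      Integrable (UNF_g K a s) ∧
      ∫ z : logSpace K, UNF_g K a s z
        = (c : ℂ) * Ga K s * ((∏ v : InfinitePlace K, a v ^ v.mult : ℝ) : ℂ) ^ (-s))
    (g : K) (hg : g ≠ 0) (X : (𝓞 K)ˣ → K) (hX : ∀ u, X u = (u : K) * g) (s : ℂ) (hs : 0 < s.re) :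
    (∀ u, Integrable (UNF_F K s (X u)) (UNF_P1 K)) ∧
    HasSum (fun u => ∫ p, UNF_F K s (X u) p ∂(UNF_P1 K))
      ((Nat.card (torsion K) : ℂ) * ((c : ℂ) * Ga K s *
        ((∏ v : InfinitePlace K, v g ^ v.mult : ℝ) : ℂ) ^ (-s))) := by
  have ha : ∀ v : InfinitePlace K, 0 < v g := fun v => (InfinitePlace.pos_iff).2 hg
  obtain ⟨h1, h2, h3⟩ := hM (fun v => v g) ha s hs
  have hF : ∀ u, UNF_F K s (X u) = fun p : ℝ × logSpace K =>
      (UNF_E K (fun v => v g) p.1 (logEmbedding K (Additive.ofMul u) + p.2) : ℂ) *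
        UNF_phi K s p.1 := by
    intro u
    funext p
    unfold UNF_F
    rw [UNF_key K hTAU u g (X u) (hX u)]
  refine ⟨fun u => ?_, ?_⟩
  · rw [hF]
    exact (UNF_shift K _ s _ h1).1
  · have h5 := UNF_units K hFDX (UNF_g K (fun v => v g) s) h2
    rw [h3] at h5
    refine h5.congr_fun fun u => ?_
    rw [hF]
    exact (UNF_shift K _ s _ h1).2

theorem UNF_normF (hFDX : FDX_stmt) (s : ℂ) (x : K) :
    ((∫ p, ‖UNF_F K s x p‖ ∂(UNF_P1 K) : ℝ) : ℂ) = ∫ p, UNF_F K (s.re : ℂ) x p ∂(UNF_P1 K) := by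
  rw [← integral_complex_ofReal]
  refine integral_congr_ae ?_
  filter_upwards [UNF_P1_ae K hFDX] with p hp
  exact UNF_norm K _ (Real.exp_pos _).le s p.1 hp

end main

theorem UNF (hTHI : THI_stmt) (hTAU : TAU_stmt) (hFDX : FDX_stmt) (hMEL : MEL_stmt)
    (hGEN : GEN_stmt) (hDZS : DZS_stmt) : UNF_stmt := by
  intro K _ _
  obtain ⟨c0, hc0, hM⟩ := UNF_mel K hMEL
  have hw : 0 < Nat.card (torsion K) := Nat.card_pos
  have hw' : (0 : ℝ) < (Nat.card (torsion K) : ℝ) := Nat.cast_pos.2 hw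
  refine ⟨(Nat.card (torsion K) : ℝ) * c0, mul_pos hw' hc0, ?_⟩
  intro J hJ s hs
  have hs0 : 0 < s.re := lt_trans zero_lt_one hs
  have hcK : Countable K := UNF_cK K
  obtain ⟨g, e, he, hg0, hgn⟩ := hGEN K J hJ
  have hcX : Countable (UNF_X K J) := inferInstance
  have hci : Countable (IJ K J × (𝓞 K)ˣ) := e.symm.injective.countable
  -- the elements
  have hX : ∀ (I : IJ K J) (u : (𝓞 K)ˣ), ((e.symm (I, u)) : K) = (u : K) * g I := by
    intro I u
    have h1 := he (e.symm (I, u))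
    rw [Equiv.apply_symm_apply] at h1
    exact h1
  -- the fibres
  have hfib : ∀ (r : ℂ), 0 < r.re → ∀ I : IJ K J,
      (∀ u, Integrable (UNF_F K r (e.symm (I, u) : K)) (UNF_P1 K)) ∧
      HasSum (fun u : (𝓞 K)ˣ => ∫ p, UNF_F K r (e.symm (I, u) : K) p ∂(UNF_P1 K))
        ((Nat.card (torsion K) : ℂ) * ((c0 : ℂ) * Ga K r *
          ((Ideal.absNorm (I : Ideal (𝓞 K)) : ℕ) : ℂ) ^ (-r) *
          ((FractionalIdeal.absNorm J : ℝ) : ℂ) ^ (-r))) := by
    intro r hr I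
    obtain ⟨h1, h2⟩ := UNF_fib K hTAU hFDX c0 hM (g I) (hg0 I)
      (fun u => (e.symm (I, u) : K)) (fun u => hX I u) r hr
    refine ⟨h1, ?_⟩
    rw [hgn I] at h2
    have h3 : (((Ideal.absNorm (I : Ideal (𝓞 K)) : ℝ) * (FractionalIdeal.absNorm J : ℝ) : ℝ) : ℂ) ^ (-r)
        = ((Ideal.absNorm (I : Ideal (𝓞 K)) : ℕ) : ℂ) ^ (-r) *
          ((FractionalIdeal.absNorm J : ℝ) : ℂ) ^ (-r) := by
      rw [Complex.ofReal_mul, Complex.mul_cpow_ofReal_nonneg (Nat.cast_nonneg _)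
        (Rat.cast_nonneg.2 (FractionalIdeal.absNorm_nonneg J)), Complex.ofReal_natCast]
    rw [h3] at h2
    rw [mul_assoc ((c0 : ℂ) * Ga K r)]
    exact h2
  -- summability of the norms
  have hint : ∀ i : IJ K J × (𝓞 K)ˣ, Integrable (UNF_F K s (e.symm i : K)) (UNF_P1 K) :=
    fun i => (hfib s hs0 i.1).1 i.2
  have hnorm : Summable (fun i : IJ K J × (𝓞 K)ˣ =>
      ∫ p, ‖UNF_F K s (e.symm i : K) p‖ ∂(UNF_P1 K)) := by
    have hnn : 0 ≤ (fun i : IJ K J × (𝓞 K)ˣ => ∫ p, ‖UNF_F K s (e.symm i : K) p‖ ∂(UNF_P1 K)) :=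
      fun i => integral_nonneg (fun _ => norm_nonneg _)
    have hre : 0 < ((s.re : ℝ) : ℂ).re := by rw [Complex.ofReal_re]; exact hs0
    have hF2 : ∀ I : IJ K J, HasSum (fun u : (𝓞 K)ˣ =>
        ((∫ p, ‖UNF_F K s (e.symm (I, u) : K) p‖ ∂(UNF_P1 K) : ℝ) : ℂ))
        ((Nat.card (torsion K) : ℂ) * ((c0 : ℂ) * Ga K (s.re : ℂ) *
          ((Ideal.absNorm (I : Ideal (𝓞 K)) : ℕ) : ℂ) ^ (-(s.re : ℂ)) *
          ((FractionalIdeal.absNorm J : ℝ) : ℂ) ^ (-(s.re : ℂ)))) := by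
      intro I
      refine (hfib (s.re : ℂ) hre I).2.congr_fun fun u => ?_
      exact UNF_normF K hFDX s _
    rw [summable_prod_of_nonneg hnn]
    refine ⟨fun I => ?_, ?_⟩
    · exact Complex.summable_ofReal.1 (hF2 I).summable
    · have h4 : ∀ I : IJ K J, (∑' u : (𝓞 K)ˣ, ∫ p, ‖UNF_F K s (e.symm (I, u) : K) p‖ ∂(UNF_P1 K))
          = ‖((Nat.card (torsion K) : ℂ) * ((c0 : ℂ) * Ga K (s.re : ℂ) *
          ((Ideal.absNorm (I : Ideal (𝓞 K)) : ℕ) : ℂ) ^ (-(s.re : ℂ)) *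
          ((FractionalIdeal.absNorm J : ℝ) : ℂ) ^ (-(s.re : ℂ))))‖ := by
        intro I
        have h5 := (hF2 I).tsum_eq
        rw [← Complex.ofReal_tsum] at h5
        rw [← h5, Complex.norm_real, Real.norm_of_nonneg]
        exact tsum_nonneg fun u => hnn (I, u)
      have h6 := ((hDZS K (s.re : ℂ) (by rw [Complex.ofReal_re]; exact hs)).1).norm
      have h7 : Function.Injective (fun I : IJ K J =>
          (⟨(I : Ideal (𝓞 K)), I.2.1⟩ : {I : Ideal (𝓞 K) // I ≠ ⊥})) := by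
        intro I I' h
        have := congrArg (fun z : {I : Ideal (𝓞 K) // I ≠ ⊥} => (z : Ideal (𝓞 K))) h
        exact Subtype.ext this
      have h8 := h6.comp_injective h7
      have h9 : Summable (fun I : IJ K J =>
        ‖((Ideal.absNorm (I : Ideal (𝓞 K)) : ℕ) : ℂ) ^ (-(s.re : ℂ))‖) := h8
      have h10 := (h9.mul_left (‖(Nat.card (torsion K) : ℂ) * ((c0 : ℂ) * Ga K (s.re : ℂ))‖ *
        ‖((FractionalIdeal.absNorm J : ℝ) : ℂ) ^ (-(s.re : ℂ))‖))
      refine h10.congr fun I => ?_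
      rw [h4 I]
      simp only [norm_mul]
      ring
  -- the sum
  have hsum := hasSum_integral_of_summable_integral_norm hint hnorm
  have hfw := hsum.prod_fiberwise (fun I => (hfib s hs0 I).2)
  have hpt : ∀ p : ℝ × logSpace K, 0 < p.1 → Summable (fun i : IJ K J × (𝓞 K)ˣ =>
      Real.exp (-π * qf K (fun v => p.1 * tau K p.2 v) (e.symm i : K))) ∧
      th K (J : Submodule (𝓞 K) K) (fun v => p.1 * tau K p.2 v) = 1 +
        ∑' i : IJ K J × (𝓞 K)ˣ, Real.exp (-π * qf K (fun v => p.1 * tau K p.2 v) (e.symm i : K)) := by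
    intro p hp
    obtain ⟨h1, h2⟩ := UNF_th K hTHI J hJ (fun v => p.1 * tau K p.2 v)
      (fun v => mul_pos hp ((hTAU K).1 p.2 v))
    have h3 := e.symm.summable_iff.2 h1
    have h4 := e.symm.tsum_eq (fun x : UNF_X K J =>
      Real.exp (-π * qf K (fun v => p.1 * tau K p.2 v) (x : K)))
    exact ⟨h3, by rw [h2, ← h4]⟩
  have hHint : Integrable (fun p => ∑' i : IJ K J × (𝓞 K)ˣ, UNF_F K s (e.symm i : K) p) (UNF_P1 K) := by
    refine UNF_itsum hint hnorm ?_
    filter_upwards [UNF_P1_ae K hFDX] with p hp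
    have h1 := (Complex.summable_ofReal.2 (hpt p hp).1).mul_right (UNF_phi K s p.1)
    exact h1
  have hLHS : ∫ y in Set.Ioi (0 : ℝ), ((fJ K (J : Submodule (𝓞 K) K) y - vD K : ℝ) : ℂ) *
      (y : ℂ) ^ ((finrank ℚ K : ℂ) * s / 2 - 1) =
      ∫ p, ∑' i : IJ K J × (𝓞 K)ˣ, UNF_F K s (e.symm i : K) p ∂(UNF_P1 K) := by
    have hprod : ∫ p, ∑' i : IJ K J × (𝓞 K)ˣ, UNF_F K s (e.symm i : K) p ∂(UNF_P1 K) =
        ∫ y in Set.Ioi (0 : ℝ), ∫ z in FD K,
          ∑' i : IJ K J × (𝓞 K)ˣ, UNF_F K s (e.symm i : K) (y, z) := integral_prod _ hHint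
    have hae : ∀ᵐ y ∂((volume : Measure ℝ).restrict (Set.Ioi 0)), Integrable (fun z =>
        ∑' i : IJ K J × (𝓞 K)ˣ, UNF_F K s (e.symm i : K) (y, z)) (volume.restrict (FD K)) :=
      hHint.prod_right_ae
    rw [hprod]
    refine integral_congr_ae ?_
    filter_upwards [hae, ae_restrict_mem measurableSet_Ioi] with y hy1 hy0
    have hy : 0 < y := hy0
    have hphi : UNF_phi K s y ≠ 0 := by
      unfold UNF_phi
      intro h0
      rw [Complex.cpow_eq_zero_iff] at h0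
      exact hy.ne' (Complex.ofReal_eq_zero.1 h0.1)
    let h : logSpace K → ℝ := fun z => ∑' i : IJ K J × (𝓞 K)ˣ,
      Real.exp (-π * qf K (fun v => y * tau K z v) (e.symm i : K))
    have hH : ∀ z, (∑' i : IJ K J × (𝓞 K)ˣ, UNF_F K s (e.symm i : K) (y, z)) =
        (h z : ℂ) * UNF_phi K s y := by
      intro z
      show (∑' i : IJ K J × (𝓞 K)ˣ, ((Real.exp (-π * qf K (fun v => y * tau K z v)
        (e.symm i : K)) : ℝ) : ℂ) * UNF_phi K s y) = _
      rw [tsum_mul_right, ← Complex.ofReal_tsum]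
    have hh : Integrable (fun z => (h z : ℂ)) (volume.restrict (FD K)) := by
      have h1 := hy1.mul_const (UNF_phi K s y)⁻¹
      refine h1.congr (Filter.Eventually.of_forall fun z => ?_)
      show (∑' i : IJ K J × (𝓞 K)ˣ, UNF_F K s (e.symm i : K) (y, z)) * (UNF_phi K s y)⁻¹ = _
      rw [hH, mul_assoc, mul_inv_cancel₀ hphi, mul_one]
    have hh' : Integrable h (volume.restrict (FD K)) := by
      have h1 := hh.re
      simpa using h1
    have hth : ∀ z : logSpace K, th K (J : Submodule (𝓞 K) K) (fun v => y * tau K z v) = 1 + h z :=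
      fun z => (hpt (y, z) hy).2
    have hfJ : fJ K (J : Submodule (𝓞 K) K) y = vD K + ∫ z in FD K, h z := by
      unfold fJ
      have h1 : (∫ z in FD K, th K (J : Submodule (𝓞 K) K) (fun v => y * tau K z v)) =
        ∫ z in FD K, (1 + h z) := by
        refine integral_congr_ae (Filter.Eventually.of_forall fun z => ?_)
        exact hth z
      have h2 : Integrable (fun _ : logSpace K => (1 : ℝ)) (volume.restrict (FD K)) :=
        (integrableOn_const (ne_of_lt (hFDX K).2.2.2.2.1))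
      rw [h1, integral_add h2 hh', setIntegral_const]
      congr 1
      rw [smul_eq_mul, mul_one]
      rfl
    show ((fJ K (J : Submodule (𝓞 K) K) y - vD K : ℝ) : ℂ) * UNF_phi K s y =
      ∫ z in FD K, ∑' i : IJ K J × (𝓞 K)ˣ, UNF_F K s (e.symm i : K) (y, z)
    rw [hfJ, add_sub_cancel_left]
    have h3 : (∫ z in FD K, ∑' i : IJ K J × (𝓞 K)ˣ, UNF_F K s (e.symm i : K) (y, z)) =
        ∫ z in FD K, (h z : ℂ) * UNF_phi K s y :=
      integral_congr_ae (Filter.Eventually.of_forall fun z => hH z)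
    rw [h3, integral_mul_const, integral_complex_ofReal]
  rw [hLHS, ← hfw.tsum_eq, ← tsum_mul_left]
  refine tsum_congr fun I => ?_
  push_cast
  ring

end Pool.Agent.RB
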